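import Pool.Agent.N790.CM.C
import Pool.Agent.Results.MP_ca2859_nt.MultiplicativeValues

/-!
# The discriminant bound for all hyperelliptic curves with heights near some multiple of Carmichael's function

Hyperelliptic curves of genus `g ≥ 2` over a number field `K` all of whose Weierstrass points are rational: the twists by
`d ∈ K*` of `y² = X ∏ (X - x_i)`, where `x` is a point of `P^{2g-1}(K)` with `0, x_i` different. Let `α > 0`, `e ≥ 1`,
`0 ≤ θ`, `B ≥ 1` and `κ > 4 g + 4`. If `B`, `e` and `θ` are small in terms of `κ`, then for all `m ≤ N` but `N / (log N)^U` and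
for EVERY multiple `w ≤ N^B` of Carmichael's function `λ(m)` the inequality `Δ_C ≤ c M_C ^ κ` holds for ALL twists of ALL
such configurations `x` with `|H_K(x) ^ (2g) - α w^e| ≤ w ^ θ`; if `κ < 4 g + 4` it fails for some twist of EACH such `x`, for
all `m ≤ N` but `N / (log N)^U`. More generally `G w` takes the place of `α w^e`, where `G` is any function with steps
bounded below by a positive constant and growth at most `v^e`, and `w` is any common multiple of the values `f(p)`, `p`
running through the large primes which divide `m` exactly once, where `f` takes each positive value at boundedly many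
primes.

A single `m` has a power of `N` multiples of this kind, and a single `w ≤ N^B` can be a multiple of `λ(m)` for more than
`N^(1 - ε)` numbers `m ≤ N` (popular values). So this does not follow from the size of the exceptional set, which is bounded
by the starting theorem `RationalWeierstrassPoints` of this problem.
-/

set_option autoImplicit false

open NumberField Height Finset LinearAlgebra.Projectivization Polynomial
open Pool.Agent.W318 (discNorm badNorm)

namespace Pool.Agent.Results.MP_ca2859_nt.CarmichaelMultiples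

open Pool.Agent.N733.TG (Expanding expanding_pow)
open Pool.Agent.N790.CM (FewTimes Carries OnMultiples keep_good fewTimes_pred fewTimes_poly pred_dvd_carmichael)
open MultiplicativeValues (count_of)

/-- the roots `0, x_0, ..., x_n` -/
def roots {K : Type} [Field K] {n : ℕ} (x : Fin (n + 1) → K) : Fin (n + 2) → K := Fin.cons 0 x

/-- the right hand side of `y² = d ∏ (X - e_i)`, the `e_i` being the roots -/
noncomputable def curve {K : Type} [Field K] {n : ℕ} (d : K) (x : Fin (n + 1) → K) : K[X] :=
  C d * ∏ i, (X - C (roots x i))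

/-- the exponent above `4 g + 4` -/
noncomputable def expo (g : ℕ) (κ : ℝ) : ℝ :=
  min (max (2 * g - 1 / 2) (4 * g / (κ - 4 * g - 2)))
    (min (2 * g * (2 * g + 1) / (κ - 4 * g - 2)) (1 + 2 * g * (2 * g - 1) / (κ - 4 * g - 2)))

/-- the exponent below `4 g + 4` -/
noncomputable def expoBelow (g : ℕ) (κ : ℝ) : ℝ :=
  max (2 * g - 1 / 2) (4 * g / (2 + (2 * g + 1) * (1 - κ / (4 * g + 4))))

/-- `Q w` holds for EVERY `w` with `1 ≤ w ≤ N^B` which is divisible by `f p` for all primes `p > exp (√(log N))` dividing `m`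
exactly once, for all `m ≤ N` but at most `N / (log N)^U`, `N` large -/
def ForAlmostAll (B : ℝ) (f : ℕ → ℕ) (U : ℕ) (Q : ℕ → Prop) : Prop :=
  ∃ N₀ : ℕ, ∀ N : ℕ, N₀ ≤ N →
    ({m : ℕ | 1 ≤ m ∧ m ≤ N ∧ ¬ ∀ w : ℕ, 1 ≤ w → (w : ℝ) ≤ (N : ℝ) ^ B →
      Carries f (Real.exp √(Real.log N)) m w → Q w}.ncard : ℝ) ≤ N / Real.log N ^ U

/-- **Theorem.** Let `G` have steps `≥ a > 0` and growth at most `v^e`, let `B ≥ 1`, and let `f` take each positive value at
most `T` times at the primes. Let `K` be a number field, `g ≥ 2`, `c > 0`, `θ ≥ 0` and `U` a natural number.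
(1) If `κ > 4 g + 4` then `expo g κ < 2 g`, and if `B (e * expo g κ / (2 g) + θ) < 1` then for all large `N`, for all `m ≤ N`
but at most `N / (log N)^U`, for EVERY `w` with `1 ≤ w ≤ N^B` and `f(p) ∣ w` for all primes `p > exp (√(log N))` which divide
`m` exactly once, the inequality `Δ_C ≤ c M_C ^ κ` holds for ALL twists `d` of ALL configurations `P` with different roots
and `|H_K(P) ^ (2 g) - G w| ≤ w ^ θ`.
(2) If `0 ≤ κ < 4 g + 4` then `expoBelow g κ < 2 g`, and if `B (e * expoBelow g κ / (2 g) + θ) < 1` then for all large `N`,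
for all `m ≤ N` but at most `N / (log N)^U` and EVERY such `w`, for EACH such configuration the inequality fails for some
twist.
(3) The function `f(p) = p - 1` takes each value at most once, and every multiple of Carmichael's function `λ(m)` is
divisible by `p - 1` for all `p ∣ m`; the function `|P(p)|`, `P` a nonconstant integer polynomial, takes each positive value
at most `2 deg P` times; and `G v = α v^e` with `α > 0`, `e ≥ 1` is an example of `G`. -/
theorem result :
    (∀ (G : ℕ → ℝ) (e : ℝ), Expanding G e → ∀ (f : ℕ → ℕ) (T : ℕ), FewTimes f T →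
      ∀ (K : Type) [Field K] [NumberField K] (g n : ℕ) (κ c θ B : ℝ), 2 ≤ g → n + 1 = 2 * g → 0 < c → 0 ≤ θ → 1 ≤ B →
      (4 * g + 4 < κ → expo g κ < 2 * g ∧ (B * (e * (expo g κ / (2 * g)) + θ) < 1 → ∀ U : ℕ,
        ForAlmostAll B f U (fun w => ∀ P : ℙ K (Fin (n + 1) → K), Function.Injective (roots P.rep) →
          |P.mulHeight ^ (2 * g) - G w| ≤ (w : ℝ) ^ θ → ∀ d : K, d ≠ 0 →
            (discNorm g (curve d P.rep) : ℝ) ≤ c * (badNorm g (curve d P.rep) : ℝ) ^ κ))) ∧
      (0 ≤ κ → κ < 4 * g + 4 →
        expoBelow g κ < 2 * g ∧ (B * (e * (expoBelow g κ / (2 * g)) + θ) < 1 → ∀ U : ℕ,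
        ForAlmostAll B f U (fun w => ∀ P : ℙ K (Fin (n + 1) → K), Function.Injective (roots P.rep) →
          |P.mulHeight ^ (2 * g) - G w| ≤ (w : ℝ) ^ θ → ∃ d : K, d ≠ 0 ∧
            c * (badNorm g (curve d P.rep) : ℝ) ^ κ < (discNorm g (curve d P.rep) : ℝ))))) ∧
    (FewTimes (fun p => p - 1) 1 ∧
      ∀ (y : ℝ) (m w : ℕ), ArithmeticFunction.carmichael m ∣ w → Carries (fun p => p - 1) y m w) ∧
    (∀ P : Polynomial ℤ, 1 ≤ P.natDegree →
      FewTimes (fun p => (P.eval (p : ℤ)).natAbs) (2 * P.natDegree)) ∧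
    ∀ α e : ℝ, 0 < α → 1 ≤ e → Expanding (fun v => α * (v : ℝ) ^ e) e := by
  refine ⟨fun G e hG f T hf K _ _ g n κ c θ B hg hn hc hθ hB => ⟨fun hκ => ?_, fun hκ0 hκ => ?_⟩,
    ⟨fewTimes_pred, fun y m w h p hp _ hpm _ => (pred_dvd_carmichael hp hpm).trans h⟩,
    fewTimes_poly, fun α e hα he => expanding_pow hα he⟩
  · obtain ⟨h1, h2⟩ := (RationalWeierstrassPoints.result K g n hg hn κ).1 hκ
    have hg2 : (2 : ℝ) ≤ g := by exact_mod_cast hg
    have hs : 0 ≤ expo g κ := by
      have hk : 0 < κ - 4 * g - 2 := by linarith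
      unfold expo
      refine le_min ((by linarith : (0 : ℝ) ≤ 2 * g - 1 / 2).trans (le_max_left _ _)) (le_min ?_ ?_)
      · positivity
      · have : (0 : ℝ) ≤ 2 * g - 1 := by linarith
        positivity
    refine ⟨h1, fun hle U => ?_⟩
    exact keep_good (T := ℙ K (Fin (n + 1) → K)) (fun P => Function.Injective (roots P.rep))
      (fun P => ∀ d : K, d ≠ 0 → (discNorm g (curve d P.rep) : ℝ) ≤ c * (badNorm g (curve d P.rep) : ℝ) ^ κ)
      (fun P => P.mulHeight ^ (2 * g)) hG (s := expo g κ / (2 * g)) (κ := θ) (by positivity) hθ hB hle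
      (count_of hg _ (fun B => RationalWeierstrassPoints.exceptional K g n κ c B) (expo g κ)
        (fun δ hδ => h2 c δ hc hδ) (fun P hP B hB hB2 => by
          have h3 := hP.2
          push Not at h3
          exact ⟨hP.1, hB2, h3⟩)) f T hf U
  · obtain ⟨h1, h2⟩ := (RationalWeierstrassPoints.result K g n hg hn κ).2 hκ0 hκ
    have hg2 : (2 : ℝ) ≤ g := by exact_mod_cast hg
    have hs : 0 ≤ expoBelow g κ := by
      unfold expoBelow
      exact (by linarith : (0 : ℝ) ≤ 2 * g - 1 / 2).trans (le_max_left _ _)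
    refine ⟨h1, fun hle U => ?_⟩
    exact keep_good (T := ℙ K (Fin (n + 1) → K)) (fun P => Function.Injective (roots P.rep))
      (fun P => ∃ d : K, d ≠ 0 ∧ c * (badNorm g (curve d P.rep) : ℝ) ^ κ < (discNorm g (curve d P.rep) : ℝ))
      (fun P => P.mulHeight ^ (2 * g)) hG (s := expoBelow g κ / (2 * g)) (κ := θ) (by positivity) hθ hB hle
      (count_of hg _ (fun B => RationalWeierstrassPoints.uniform K g n κ c B) (expoBelow g κ)
        (fun δ hδ => h2 c δ hc hδ) (fun P hP B hB hB2 => by
          have h3 := hP.2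
          push Not at h3
          exact ⟨hP.1, hB2, h3⟩)) f T hf U

end Pool.Agent.Results.MP_ca2859_nt.CarmichaelMultiples
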