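import Pool.Agent.R942.HX.Torus
import Pool.Agent.Zk94.Tr.Fields
import Pool.Agent.Results.MP_ca2859_nt.MultiplicativeValues

/-!
# The discriminant bound for all hyperelliptic curves which have digit strings in common with typical real numbers

Hyperelliptic curves of genus `g ≥ 2` over a number field `K ⊆ ℂ` all of whose Weierstrass points are rational: the twists
by `d ∈ K*` of `y² = X ∏ (X - x_i)`, where `x` is a point of `P^{2g-1}(K)` with `0, x_i` different (a configuration).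

We say that a real number `N` and `θ` have a common string of precision `ρ` in base `b` if
`|N / b ^ i - b ^ m θ - j| ≤ ρ` for some integer `j`, some `i` with `b ^ i ≤ b Y` and some `m ≤ Z`: about
`- log ρ / log b` consecutive digits of `N`, at any place, are consecutive digits of `θ`, at any place up to the `Z`-th
digit.

Let `N_1, …, N_r` be any real functions of the configuration: for `K = ℚ` for instance the (integral, coprime) coordinates,
differences of the roots, the discriminant of the right hand side, invariants, or its height. For almost all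
`θ = (θ_1, …, θ_r)` in `ℝ^r` we consider the configurations `x` such that each `N_k(x)` has a common string with `θ_k` of
precision `H_K(x) ^ (-v)`, where `b ^ i ≤ b H_K(x) ^ w`, at any place up to the `H_K(x) ^ u`-th digit of `θ_k`.

(1) For every `v > u` there is `κ₀` such that for all `κ ≥ κ₀` and `c > 0`, for all but finitely many of these configurations
ALL twists satisfy `Δ_C ≤ c M_C ^ κ`. So an arbitrarily small proportion of the digits, at any place, is enough. For given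
`κ > 4 g + 4` this holds if `v > u + s / r`, `s = expo g κ < 2 g`.

(2) If `0 ≤ κ < 4 g + 4` and `v > u + s' / r`, `s' = expoBelow g κ < 2 g`, then for all but finitely many of these
configurations the inequality fails for some twist, for every `c`.

There is one null set for all `b`, `u`, `v`, `κ`, `c` and all subfields `K` of `ℂ` of finite degree.

The number of the exceptional configurations is bounded in the starting result `RationalWeierstrassPoints` of this problem; the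
tool for digit strings is `Pool.Agent.R942.HX` (starting file, used there for Hall's conjecture).
-/

set_option autoImplicit false

open NumberField Height Finset LinearAlgebra.Projectivization Polynomial
open Pool.Agent.W318 (discNorm badNorm)

namespace Pool.Agent.Results.MP_ca2859_nt.CommonDigitStrings

open MeasureTheory Filter Topology
open MultiplicativeValues (count_of)
open Pool.Agent.R942.HX (Sparse)

/-- the roots `0, x_0, ..., x_n` -/
def roots {K : Type} [Field K] {n : ℕ} (x : Fin (n + 1) → K) : Fin (n + 2) → K := Fin.cons 0 x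

/-- the right hand side of `y² = d ∏ (X - e_i)`, the `e_i` being the roots -/
noncomputable def curve {K : Type} [Field K] {n : ℕ} (d : K) (x : Fin (n + 1) → K) : K[X] :=
  C d * ∏ i, (X - C (roots x i))

/-- the exponent above `4 g + 4` -/
noncomputable def expo (g : ℕ) (κ : ℝ) : ℝ :=
  min (max (2 * g - 1 / 2) (4 * g / (κ - 4 * g - 2)))
    (min (2 * g * (2 * g + 1) / (κ - 4 * g - 2)) (1 + 2 * g * (2 * g - 1) / (κ - 4 * g - 2)))

/-- the exponent below `4 g + 4` -/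
noncomputable def expoBelow (g : ℕ) (κ : ℝ) : ℝ :=
  max (2 * g - 1 / 2) (4 * g / (2 + (2 * g + 1) * (1 - κ / (4 * g + 4))))

/-- all twists of the configuration `P` satisfy `Δ ≤ c M ^ κ` -/
def AllTwists (K : Type) [Field K] [NumberField K] (g n : ℕ) (c κ : ℝ) (P : ℙ K (Fin (n + 1) → K)) : Prop :=
  ∀ d : K, d ≠ 0 → (discNorm g (curve d P.rep) : ℝ) ≤ c * (badNorm g (curve d P.rep) : ℝ) ^ κ

/-- `N` and `θ` have a common string of precision `ρ` in base `b`: `|N / b ^ i - b ^ m θ - j| ≤ ρ` for some integer `j`,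
some `i` with `b ^ i ≤ b Y` and some `m ≤ Z` -/
def CommonString (b : ℕ) (θ Y Z ρ N : ℝ) : Prop :=
  ∃ i m : ℕ, ∃ j : ℤ, (b : ℝ) ^ i ≤ b * Y ∧ (m : ℝ) ≤ Z ∧ |N / (b : ℝ) ^ i - (b : ℝ) ^ m * θ - j| ≤ ρ

/-- each `N_k(P)` has a common string with `θ_k` of precision `H_K(P) ^ (-v)`, `b ^ i ≤ b H_K(P) ^ w`, at any place up to
the `H_K(P) ^ u`-th digit of `θ_k` -/
def Strings {K : Type} [Field K] [NumberField K] {n : ℕ} (b : ℕ) {r : ℕ} (θ : Fin r → ℝ)
    (N : Fin r → ℙ K (Fin (n + 1) → K) → ℝ) (w u v : ℝ) (P : ℙ K (Fin (n + 1) → K)) : Prop :=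
  ∀ k, CommonString b (θ k) (P.mulHeight ^ w) (P.mulHeight ^ u) (P.mulHeight ^ (-v)) (N k P)

/-! ### the exponents -/

lemma expo_cont {g : ℕ} {κ : ℝ} (hκ : 4 * g + 4 < κ) : ContinuousAt (expo g) κ := by
  have h0 : κ - 4 * g - 2 ≠ 0 := by
    have : (0 : ℝ) < κ - 4 * g - 2 := by linarith
    exact this.ne'
  unfold expo
  fun_prop (disch := exact h0)

lemma expoBelow_den {g : ℕ} {κ : ℝ} (hκ : κ < 4 * g + 4) : 0 < 2 + (2 * g + 1) * (1 - κ / (4 * g + 4)) := by
  have h4 : (0 : ℝ) < 4 * g + 4 := by positivity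
  have h1 : κ / (4 * g + 4) < 1 := by
    rw [div_lt_one h4]
    exact hκ
  have h2 : (0 : ℝ) < (2 * g + 1) * (1 - κ / (4 * g + 4)) := mul_pos (by positivity) (by linarith)
  linarith

lemma expoBelow_cont {g : ℕ} {κ : ℝ} (hκ : κ < 4 * g + 4) : ContinuousAt (expoBelow g) κ := by
  have h0 : 2 + (2 * g + 1) * (1 - κ / (4 * g + 4)) ≠ 0 := (expoBelow_den hκ).ne'
  have h4 : (4 * g + 4 : ℝ) ≠ 0 := by positivity
  unfold expoBelow
  fun_prop (disch := first | exact h0 | exact h4)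

lemma expo_nonneg {g : ℕ} (hg : 2 ≤ g) {κ : ℝ} (hκ : 4 * g + 4 < κ) : 0 ≤ expo g κ := by
  have hg2 : (2 : ℝ) ≤ g := by exact_mod_cast hg
  have hk : 0 < κ - 4 * g - 2 := by linarith
  unfold expo
  refine le_min ((by linarith : (0 : ℝ) ≤ 2 * g - 1 / 2).trans (le_max_left _ _)) (le_min ?_ ?_)
  · positivity
  · have : (0 : ℝ) ≤ 2 * g - 1 := by linarith
    positivity

lemma expoBelow_nonneg {g : ℕ} (hg : 2 ≤ g) (κ : ℝ) : 0 ≤ expoBelow g κ := by
  have hg2 : (2 : ℝ) ≤ g := by exact_mod_cast hg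
  unfold expoBelow
  exact (by linarith : (0 : ℝ) ≤ 2 * g - 1 / 2).trans (le_max_left _ _)

/-- the exponent tends to zero -/
lemma expo_small {g : ℕ} {δ : ℝ} (hδ : 0 < δ) : ∃ κ₀ : ℝ, 4 * g + 4 < κ₀ ∧ ∀ κ : ℝ, κ₀ ≤ κ → expo g κ < δ := by
  have hg0 : (0 : ℝ) ≤ g := Nat.cast_nonneg g
  refine ⟨4 * g + 5 + (2 * g * (2 * g + 1) + 1) / δ, ?_, fun κ hκ => ?_⟩
  · have : (0 : ℝ) < (2 * g * (2 * g + 1) + 1) / δ := by positivity
    linarith
  · have h1 : (0 : ℝ) < (2 * g * (2 * g + 1) + 1) / δ := by positivity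
    have h2 : (2 * g * (2 * g + 1) + 1) / δ < κ - 4 * g - 2 := by linarith
    have h3 : 0 < κ - 4 * g - 2 := by linarith
    have h4 : expo g κ ≤ 2 * g * (2 * g + 1) / (κ - 4 * g - 2) :=
      (min_le_right _ _).trans (min_le_left _ _)
    refine lt_of_le_of_lt h4 ?_
    rw [div_lt_iff₀ h3]
    rw [div_lt_iff₀ hδ] at h2
    linarith

/-! ### one field -/

section
variable {K : Type} [Field K] [NumberField K]

/-- the exceptions above `4 g + 4` -/
def Bad (K : Type) [Field K] [NumberField K] (g n : ℕ) (κ c : ℝ) : Set (ℙ K (Fin (n + 1) → K)) :=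
  {P | Function.Injective (roots P.rep) ∧ ¬ AllTwists K g n c κ P}

/-- the exceptions below `4 g + 4` -/
def Good (K : Type) [Field K] [NumberField K] (g n : ℕ) (κ c : ℝ) : Set (ℙ K (Fin (n + 1) → K)) :=
  {P | Function.Injective (roots P.rep) ∧ AllTwists K g n c κ P}

lemma sparse_of {g n : ℕ} (hg : 2 ≤ g) {S : Set (ℙ K (Fin (n + 1) → K))} {e : ℝ}
    (h : ∀ ε : ℝ, 0 < ε → ∃ C : ℝ, ∀ X : ℝ, 1 ≤ X → {P | P ∈ S ∧ P.mulHeight ^ (2 * g) ≤ X}.Finite ∧
      ({P | P ∈ S ∧ P.mulHeight ^ (2 * g) ≤ X}.ncard : ℝ) ≤ C * X ^ (e / (2 * g) + ε)) :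
    Sparse (fun P : ℙ K (Fin (n + 1) → K) => P.mulHeight) S e := by
  have hg0 : (0 : ℝ) < g := by exact_mod_cast (by omega : 0 < g)
  refine ⟨fun P _ => P.one_le_mulHeight, fun ε hε => ?_⟩
  obtain ⟨C, hC⟩ := h (ε / (2 * g)) (by positivity)
  refine ⟨C, fun X hX => ?_⟩
  have hX0 : 0 < X := by linarith
  obtain ⟨h1, h2⟩ := hC (X ^ (2 * g)) (one_le_pow₀ hX)
  have hset : {P : ℙ K (Fin (n + 1) → K) | P ∈ S ∧ P.mulHeight ^ (2 * g) ≤ X ^ (2 * g)} =
      {P | P ∈ S ∧ P.mulHeight ≤ X} := by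
    ext P
    simp only [Set.mem_ofPred_eq]
    refine and_congr_right fun _ => ?_
    exact pow_le_pow_iff_left₀ P.mulHeight_pos.le hX0.le (by omega)
  rw [hset] at h1 h2
  refine ⟨h1, h2.trans (le_of_eq ?_)⟩
  rw [← Real.rpow_natCast X (2 * g), ← Real.rpow_mul hX0.le]
  congr 2
  push_cast
  field_simp

lemma sparse_bad {g n : ℕ} (hg : 2 ≤ g) (hn : n + 1 = 2 * g) {κ c : ℝ} (hκ : 4 * g + 4 < κ) (hc : 0 < c) :
    Sparse (fun P : ℙ K (Fin (n + 1) → K) => P.mulHeight) (Bad K g n κ c) (expo g κ) := by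
  refine sparse_of hg fun ε hε => ?_
  obtain ⟨-, h2⟩ := (RationalWeierstrassPoints.result K g n hg hn κ).1 hκ
  exact count_of hg _ (fun B => RationalWeierstrassPoints.exceptional K g n κ c B) (expo g κ)
    (fun δ hδ => h2 c δ hc hδ) (fun P hP B hB hB2 => by
      have h3 := hP.2
      unfold AllTwists at h3
      push Not at h3
      exact ⟨hP.1, hB2, h3⟩) ε hε

lemma sparse_good {g n : ℕ} (hg : 2 ≤ g) (hn : n + 1 = 2 * g) {κ c : ℝ} (hκ0 : 0 ≤ κ) (hκ : κ < 4 * g + 4)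
    (hc : 0 < c) :
    Sparse (fun P : ℙ K (Fin (n + 1) → K) => P.mulHeight) (Good K g n κ c) (expoBelow g κ) := by
  refine sparse_of hg fun ε hε => ?_
  obtain ⟨-, h2⟩ := (RationalWeierstrassPoints.result K g n hg hn κ).2 hκ0 hκ
  exact count_of hg _ (fun B => RationalWeierstrassPoints.uniform K g n κ c B) (expoBelow g κ)
    (fun δ hδ => h2 c δ hc hδ) (fun P hP B hB hB2 => ⟨hP.1, hB2, hP.2⟩) ε hε

/-- powers of natural numbers -/
lemma pow_mono (M : ℕ) {a κ : ℝ} (ha : 0 < a) (hκ : a ≤ κ) : (M : ℝ) ^ a ≤ (M : ℝ) ^ κ := by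
  rcases Nat.eq_zero_or_pos M with rfl | h
  · rw [Nat.cast_zero, Real.zero_rpow ha.ne', Real.zero_rpow (ha.trans_le hκ).ne']
  · exact Real.rpow_le_rpow_of_exponent_le (by exact_mod_cast h) hκ

lemma bad_mono {g n : ℕ} {a κ c c' : ℝ} (ha : 0 < a) (hκ : a ≤ κ) (hc' : 0 < c') (hc : c' ≤ c) :
    Bad K g n κ c ⊆ Bad K g n a c' := by
  rintro P ⟨h1, h2⟩
  refine ⟨h1, fun h => h2 fun d hd => (h d hd).trans ?_⟩
  exact mul_le_mul hc (pow_mono _ ha hκ) (Real.rpow_nonneg (Nat.cast_nonneg _) _) (hc'.le.trans hc)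

lemma good_mono {g n : ℕ} {a κ c c' : ℝ} (h0 : 0 < κ) (hκ : κ ≤ a) (hc0 : 0 < c) (hc : c ≤ c') :
    Good K g n κ c ⊆ Good K g n a c' := by
  rintro P ⟨h1, h2⟩
  refine ⟨h1, fun d hd => (h2 d hd).trans ?_⟩
  exact mul_le_mul hc (pow_mono _ h0 hκ) (Real.rpow_nonneg (Nat.cast_nonneg _) _) (hc0.le.trans hc)

lemma good_mono' {g n : ℕ} {κ c c' : ℝ} (hc : c ≤ c') : Good K g n κ c ⊆ Good K g n κ c' := by
  rintro P ⟨h1, h2⟩
  refine ⟨h1, fun d hd => (h2 d hd).trans ?_⟩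
  exact mul_le_mul_of_nonneg_right hc (Real.rpow_nonneg (Nat.cast_nonneg _) _)

/-- finitely many exceptions above `4 g + 4`, one null set for all constants -/
lemma fin_bad {g n : ℕ} (hg : 2 ≤ g) (hn : n + 1 = 2 * g) {r : ℕ} (hr : 1 ≤ r)
    (N : Fin r → ℙ K (Fin (n + 1) → K) → ℝ) {w : ℝ} (hw : 0 ≤ w) :
    ∀ᵐ θ : Fin r → ℝ, ∀ b : ℕ, 2 ≤ b → ∀ u v κ c : ℝ, 0 ≤ u → 4 * g + 4 < κ → 0 < c → u + expo g κ / r < v →
      {P | P ∈ Bad K g n κ c ∧ Strings b θ N w u v P}.Finite := by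
  have key : ∀ᵐ θ : Fin r → ℝ, ∀ (a : ℚ) (j : ℕ), 4 * g + 4 < (a : ℝ) → ∀ b : ℕ, 2 ≤ b → ∀ u v : ℝ, 0 ≤ u →
      u + expo g (a : ℝ) / r < v →
        {P | P ∈ Bad K g n a (1 / ((j : ℝ) + 1)) ∧ Strings b θ N w u v P}.Finite := by
    rw [ae_all_iff]
    intro a
    rw [ae_all_iff]
    intro j
    by_cases h : 4 * g + 4 < (a : ℝ)
    · filter_upwards [(sparse_bad (K := K) hg hn (κ := a) (c := 1 / ((j : ℝ) + 1)) h (by positivity)).several
        (expo_nonneg hg h) hr N hw] with θ hθ _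
      exact hθ
    · filter_upwards with θ h1
      exact absurd h1 h
  filter_upwards [key] with θ hθ b hb u v κ c hu hκ hc hv
  have hcont : ContinuousAt (fun t : ℝ => u + expo g t / r) κ :=
    (((expo_cont hκ).div_const (r : ℝ))).const_add u
  obtain ⟨δ, hδ, hball⟩ := Metric.eventually_nhds_iff.1 (hcont.eventually_lt continuousAt_const hv)
  obtain ⟨a, ha1, ha2⟩ := exists_rat_btwn (show max (4 * (g : ℝ) + 4) (κ - δ) < κ from max_lt hκ (by linarith))
  have ha3 := (le_max_right (4 * (g : ℝ) + 4) (κ - δ)).trans_lt ha1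
  have ha4 := (le_max_left (4 * (g : ℝ) + 4) (κ - δ)).trans_lt ha1
  have ha5 : u + expo g (a : ℝ) / r < v := hball (by
    rw [Real.dist_eq, abs_lt]
    constructor <;> linarith)
  have ha0 : (0 : ℝ) < a := by
    have : (0 : ℝ) ≤ g := Nat.cast_nonneg g
    linarith
  obtain ⟨j, hj⟩ := exists_nat_ge (1 / c)
  refine (hθ a j ha4 b hb u v hu ha5).subset ?_
  rintro P ⟨h1, h2⟩
  refine ⟨bad_mono ha0 ha2.le (by positivity) ?_ h1, h2⟩
  rw [div_le_iff₀ (by positivity)]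
  rw [div_le_iff₀ hc] at hj
  nlinarith

/-- finitely many exceptions below `4 g + 4`, one null set for all constants -/
lemma fin_good {g n : ℕ} (hg : 2 ≤ g) (hn : n + 1 = 2 * g) {r : ℕ} (hr : 1 ≤ r)
    (N : Fin r → ℙ K (Fin (n + 1) → K) → ℝ) {w : ℝ} (hw : 0 ≤ w) :
    ∀ᵐ θ : Fin r → ℝ, ∀ b : ℕ, 2 ≤ b → ∀ u v κ c : ℝ, 0 ≤ u → 0 ≤ κ → κ < 4 * g + 4 → u + expoBelow g κ / r < v →
      {P | P ∈ Good K g n κ c ∧ Strings b θ N w u v P}.Finite := by
  have key : ∀ᵐ θ : Fin r → ℝ, ∀ (a : ℚ) (j : ℕ), (0 : ℝ) ≤ a → (a : ℝ) < 4 * g + 4 → ∀ b : ℕ, 2 ≤ b →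
      ∀ u v : ℝ, 0 ≤ u → u + expoBelow g (a : ℝ) / r < v →
        {P | P ∈ Good K g n a ((j : ℝ) + 1) ∧ Strings b θ N w u v P}.Finite := by
    rw [ae_all_iff]
    intro a
    rw [ae_all_iff]
    intro j
    by_cases h : (0 : ℝ) ≤ a ∧ (a : ℝ) < 4 * g + 4
    · filter_upwards [(sparse_good (K := K) hg hn (κ := a) (c := (j : ℝ) + 1) h.1 h.2 (by positivity)).several
        (expoBelow_nonneg hg _) hr N hw] with θ hθ _ _
      exact hθ
    · filter_upwards with θ h1 h2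
      exact absurd ⟨h1, h2⟩ h
  filter_upwards [key] with θ hθ b hb u v κ c hu hκ0 hκ hv
  obtain ⟨j, hj⟩ := exists_nat_ge c
  rcases hκ0.eq_or_lt with h0 | h0
  · refine (hθ 0 j (by simp) (by push_cast; positivity) b hb u v hu (by push_cast; rw [h0]; exact hv)).subset ?_
    rintro P ⟨h1, h2⟩
    refine ⟨?_, h2⟩
    have h3 : Good K g n ((0 : ℚ) : ℝ) ((j : ℝ) + 1) = Good K g n κ ((j : ℝ) + 1) := by
      rw [← h0]
      norm_num
    rw [h3]
    exact good_mono' (by linarith) h1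
  · have hcont : ContinuousAt (fun t : ℝ => u + expoBelow g t / r) κ :=
      (((expoBelow_cont hκ).div_const (r : ℝ))).const_add u
    obtain ⟨δ, hδ, hball⟩ := Metric.eventually_nhds_iff.1 (hcont.eventually_lt continuousAt_const hv)
    obtain ⟨a, ha1, ha2⟩ := exists_rat_btwn (show κ < min (4 * (g : ℝ) + 4) (κ + δ) from lt_min hκ (by linarith))
    have ha3 := ha2.trans_le (min_le_right (4 * (g : ℝ) + 4) (κ + δ))
    have ha4 := ha2.trans_le (min_le_left (4 * (g : ℝ) + 4) (κ + δ))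
    have ha5 : u + expoBelow g (a : ℝ) / r < v := hball (by
      rw [Real.dist_eq, abs_lt]
      constructor <;> linarith)
    rcases le_or_gt c 0 with hc | hc
    · refine (hθ a j (by linarith) ha4 b hb u v hu ha5).subset ?_
      rintro P ⟨h1, h2⟩
      exact ⟨good_mono h0 ha1.le one_pos (by linarith [(Nat.cast_nonneg j : (0 : ℝ) ≤ j)])
        (good_mono' (by linarith) h1), h2⟩
    · refine (hθ a j (by linarith) ha4 b hb u v hu ha5).subset ?_
      rintro P ⟨h1, h2⟩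
      exact ⟨good_mono h0 ha1.le hc (by linarith) h1, h2⟩

end

/-- **Theorem.** Let `g ≥ 2`, `r ≥ 1`, `w ≥ 0`, and for each subfield `K` of `ℂ` of finite degree let `N_1, …, N_r` be real
functions on `P^{2g-1}(K)`. For almost all `θ` in `ℝ^r`, for all these `K` and all `b ≥ 2`, `u ≥ 0`, `v`, we consider the
configurations `P` (with different roots) such that each `N_k(P)` has a common string with `θ_k` of precision
`H_K(P) ^ (-v)`, `b ^ i ≤ b H_K(P) ^ w`, at any place up to the `H_K(P) ^ u`-th digit of `θ_k`.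
(1) If `κ > 4 g + 4`, `c > 0` and `v > u + expo g κ / r`, then for all but finitely many of them ALL twists satisfy
`Δ_C ≤ c M_C ^ κ`; if `v > u`, then there is `κ₀` such that this is true for all `κ ≥ κ₀` and `c > 0`.
(2) If `0 ≤ κ < 4 g + 4`, `v > u + expoBelow g κ / r` and `c` is any constant, then for all but finitely many of them some
twist violates `Δ_C ≤ c M_C ^ κ`.
(3) `expo g κ < 2 g` for `κ > 4 g + 4`, and `expoBelow g κ < 2 g` for `0 ≤ κ < 4 g + 4`. -/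
theorem result (g n : ℕ) (hg : 2 ≤ g) (hn : n + 1 = 2 * g) (r : ℕ) (hr : 1 ≤ r) (w : ℝ) (hw : 0 ≤ w)
    (N : (K : IntermediateField ℚ ℂ) → Fin r → ℙ K (Fin (n + 1) → K) → ℝ) :
    (∀ᵐ θ : Fin r → ℝ, ∀ (K : IntermediateField ℚ ℂ) [NumberField K], ∀ b : ℕ, 2 ≤ b → ∀ u v : ℝ, 0 ≤ u →
      (∀ κ c : ℝ, 4 * g + 4 < κ → 0 < c → u + expo g κ / r < v →
        {P : ℙ K (Fin (n + 1) → K) | Function.Injective (roots P.rep) ∧ Strings b θ (N K) w u v P ∧
          ¬ AllTwists K g n c κ P}.Finite) ∧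
      (u < v → ∃ κ₀ : ℝ, ∀ κ c : ℝ, κ₀ ≤ κ → 0 < c →
        {P : ℙ K (Fin (n + 1) → K) | Function.Injective (roots P.rep) ∧ Strings b θ (N K) w u v P ∧
          ¬ AllTwists K g n c κ P}.Finite) ∧
      (∀ κ c : ℝ, 0 ≤ κ → κ < 4 * g + 4 → u + expoBelow g κ / r < v →
        {P : ℙ K (Fin (n + 1) → K) | Function.Injective (roots P.rep) ∧ Strings b θ (N K) w u v P ∧
          AllTwists K g n c κ P}.Finite)) ∧
    (∀ κ : ℝ, 4 * g + 4 < κ → expo g κ < 2 * g) ∧ ∀ κ : ℝ, 0 ≤ κ → κ < 4 * g + 4 → expoBelow g κ < 2 * g := by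
  refine ⟨?_, fun κ hκ => ((RationalWeierstrassPoints.result ℚ g n hg hn κ).1 hκ).1,
    fun κ h0 hκ => ((RationalWeierstrassPoints.result ℚ g n hg hn κ).2 h0 hκ).1⟩
  have hr0 : (0 : ℝ) < r := by exact_mod_cast (by omega : 0 < r)
  have := Pool.Agent.Zk94.Tr.countable_fields
  have h1 : ∀ᵐ θ : Fin r → ℝ, ∀ (K : {K : IntermediateField ℚ ℂ // NumberField K}), ∀ [NumberField K.1],
      ∀ b : ℕ, 2 ≤ b → ∀ u v : ℝ, 0 ≤ u →
      (∀ κ c : ℝ, 4 * g + 4 < κ → 0 < c → u + expo g κ / r < v →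
        {P | P ∈ Bad K.1 g n κ c ∧ Strings b θ (N K.1) w u v P}.Finite) ∧
      (∀ κ c : ℝ, 0 ≤ κ → κ < 4 * g + 4 → u + expoBelow g κ / r < v →
        {P | P ∈ Good K.1 g n κ c ∧ Strings b θ (N K.1) w u v P}.Finite) := by
    rw [ae_all_iff]
    rintro ⟨K, hK⟩
    filter_upwards [fin_bad hg hn hr (N K) hw, fin_good hg hn hr (N K) hw] with θ hθ hθ' _ b hb u v hu
    exact ⟨fun κ c hκ hc hv => hθ b hb u v κ c hu hκ hc hv, fun κ c h0 hκ hv => hθ' b hb u v κ c hu h0 hκ hv⟩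
  filter_upwards [h1] with θ hθ K hK b hb u v hu
  obtain ⟨h2, h3⟩ := hθ ⟨K, hK⟩ b hb u v hu
  have h4 : ∀ κ c : ℝ, 4 * g + 4 < κ → 0 < c → u + expo g κ / r < v →
        {P : ℙ K (Fin (n + 1) → K) | Function.Injective (roots P.rep) ∧ Strings b θ (N K) w u v P ∧
          ¬ AllTwists K g n c κ P}.Finite := by
    intro κ c hκ hc hv
    refine (h2 κ c hκ hc hv).subset ?_
    rintro P ⟨p1, p2, p3⟩
    exact ⟨⟨p1, p3⟩, p2⟩
  refine ⟨h4, fun huv => ?_, fun κ c h0 hκ hv => ?_⟩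
  · obtain ⟨κ₀, k1, k2⟩ := expo_small (g := g) (δ := (v - u) * r) (mul_pos (by linarith) hr0)
    refine ⟨κ₀, fun κ c hκ hc => h4 κ c (k1.trans_le hκ) hc ?_⟩
    have h5 := k2 κ hκ
    have h6 : expo g κ / r < v - u := by
      rw [div_lt_iff₀ hr0]
      exact h5
    linarith
  · refine (h3 κ c h0 hκ hv).subset ?_
    rintro P ⟨p1, p2, p3⟩
    exact ⟨⟨p1, p3⟩, p2⟩

end Pool.Agent.Results.MP_ca2859_nt.CommonDigitStrings
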