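import Pool.Agent.N671.DA.Win
import Pool.Agent.Zk94.Tr.Fields
import Pool.Agent.Results.MP_ca2859_nt.MultiplicativeValues

/-!
# The discriminant bound for all hyperelliptic curves with heights near functions of the denominators of good approximations

Hyperelliptic curves of genus `g ≥ 2` over a number field `K ⊆ ℂ` all of whose Weierstrass points are rational: the twists
by `d ∈ K*` of `y² = X ∏ (X - x_i)`, where `x` is a point of `P^{2g-1}(K)` with `0, x_i` different.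

Let `α_1, …, α_k` be real numbers. We consider the natural numbers `q` with `‖q α_j - β_j‖ ≤ C q^(-τ)` for all `j`, `‖x‖` the
distance to the nearest integer; for `β = 0`, `C = 1`, `τ = 1 / k` these include the denominators of all best simultaneous
approximations (the denominators of the convergents for `k = 1`). They form a very sparse sequence, with gaps growing
exponentially for almost all `α` if `τ = 1 / k`. Let `G` be a function with steps bounded below by a positive constant and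
growth at most `v^e`, for example `a v^e`, and `0 ≤ θ ≤ 1`. We show: for all `α` in `ℝ^k` outside a set `E` of Hausdorff
dimension at most `(k + e s + θ) / (1 + τ)`, for every number field `K ⊆ ℂ` and every `c > 0` the inequality
`Δ_C ≤ c M_C ^ κ` holds for ALL twists of ALL configurations `x` with `|H_K(x) ^ (2g) - G q| ≤ q ^ θ`, for all large such `q`,
if `κ > 4 g + 4`; and it fails for some twist of EACH such `x` if `κ < 4 g + 4`. Here `s < 1` depends on `g` and `κ` only. So if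
`τ = 1 / k` and `e s + θ < 1` then these statements hold for almost all `α`. The exceptional sets do not depend on `K` and
`c`.

Proof. The `q` such that an exceptional `x` has `H_K(x) ^ (2g)` near `G q` form a set with `O(X^(e s + θ + ε))` elements up to
`X` by the starting theorem `RationalWeierstrassPoints` of this problem; and the `α` with `‖q α_j - β_j‖ ≤ C q^(-τ)` for all
`j` and infinitely many `q` of such a set are covered by few small cubes. There are countably many subfields of `ℂ` of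
finite degree.
-/

set_option autoImplicit false

open NumberField Height Finset LinearAlgebra.Projectivization Polynomial
open Pool.Agent.W318 (discNorm badNorm)

namespace Pool.Agent.Results.MP_ca2859_nt.GoodApproximations

open Pool.Agent.N671.DA (Solves Expanding expanding_pow approx_windows)
open MultiplicativeValues (count_of)

/-- the roots `0, x_0, ..., x_n` -/
def roots {K : Type} [Field K] {n : ℕ} (x : Fin (n + 1) → K) : Fin (n + 2) → K := Fin.cons 0 x

/-- the right hand side of `y² = d ∏ (X - e_i)`, the `e_i` being the roots -/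
noncomputable def curve {K : Type} [Field K] {n : ℕ} (d : K) (x : Fin (n + 1) → K) : K[X] :=
  C d * ∏ i, (X - C (roots x i))

/-- the exponent above `4 g + 4` -/
noncomputable def expo (g : ℕ) (κ : ℝ) : ℝ :=
  min (max (2 * g - 1 / 2) (4 * g / (κ - 4 * g - 2)))
    (min (2 * g * (2 * g + 1) / (κ - 4 * g - 2)) (1 + 2 * g * (2 * g - 1) / (κ - 4 * g - 2)))

/-- the exponent below `4 g + 4` -/
noncomputable def expoBelow (g : ℕ) (κ : ℝ) : ℝ :=
  max (2 * g - 1 / 2) (4 * g / (2 + (2 * g + 1) * (1 - κ / (4 * g + 4))))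

/-- all twists of the configuration `P` satisfy `Δ ≤ c M ^ κ` -/
def AllTwists (K : Type) [Field K] [NumberField K] (g n : ℕ) (c κ : ℝ) (P : ℙ K (Fin (n + 1) → K)) : Prop :=
  ∀ d : K, d ≠ 0 → (discNorm g (curve d P.rep) : ℝ) ≤ c * (badNorm g (curve d P.rep) : ℝ) ^ κ

/-- all fields and all constants at once -/
lemma win {G : ℕ → ℝ} {e : ℝ} (hG : Expanding G e) {θ s : ℝ} (hs : 0 ≤ s) (hθ : 0 ≤ θ) (hθ1 : θ ≤ 1) {n k : ℕ}
    (Bad : (K : Type) → [Field K] → [NumberField K] → ℝ → ℙ K (Fin (n + 1) → K) → Prop) (g : ℕ)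
    (hmono : ∀ (K : Type) [Field K] [NumberField K] (c c' : ℝ) (P : ℙ K (Fin (n + 1) → K)), 0 < c → c ≤ c' →
      Bad K c' P → Bad K c P)
    (hcount : ∀ (K : Type) [Field K] [NumberField K] (c : ℝ), 0 < c → ∀ ε : ℝ, 0 < ε → ∃ C : ℝ, ∀ X : ℝ, 1 ≤ X →
      {P | P ∈ {P | Bad K c P} ∧ P.mulHeight ^ (2 * g) ≤ X}.Finite ∧
      ({P | P ∈ {P | Bad K c P} ∧ P.mulHeight ^ (2 * g) ≤ X}.ncard : ℝ) ≤ C * X ^ (s + ε))
    (β : Fin k → ℝ) {τ : ℝ} (hτ : 0 < τ) :
    ∃ E : Set (Fin k → ℝ), dimH E ≤ ENNReal.ofReal ((k + (e * s + θ)) / (1 + τ)) ∧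
      ∀ α, α ∉ E → ∀ (K : IntermediateField ℚ ℂ) [NumberField K] (c C : ℝ), 0 < c → ∃ Q : ℕ, ∀ q : ℕ, Q ≤ q →
        Solves α β q (C * (q : ℝ) ^ (-τ)) → ∀ P : ℙ K (Fin (n + 1) → K),
          |P.mulHeight ^ (2 * g) - G q| ≤ (q : ℝ) ^ θ → ¬ Bad K c P := by
  have hcount' := Pool.Agent.Zk94.Tr.countable_fields
  have hall : ∀ i : {K : IntermediateField ℚ ℂ // NumberField K} × ℕ, ∃ E : Set (Fin k → ℝ),
      dimH E ≤ ENNReal.ofReal ((k + (e * s + θ)) / (1 + τ)) ∧
      ∀ α, α ∉ E → ∀ C : ℝ, ∃ Q : ℕ, ∀ q : ℕ, Q ≤ q → Solves α β q (C * (q : ℝ) ^ (-τ)) →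
        ∀ (h : NumberField i.1.1), ∀ P : ℙ i.1.1 (Fin (n + 1) → i.1.1),
          |P.mulHeight ^ (2 * g) - G q| ≤ (q : ℝ) ^ θ → ¬ Bad i.1.1 (1 / ((i.2 : ℝ) + 1)) P := by
    rintro ⟨⟨K, hK⟩, j⟩
    obtain ⟨E, h1, h2⟩ := approx_windows {P : ℙ K (Fin (n + 1) → K) | Bad K (1 / ((j : ℝ) + 1)) P}
      (fun P => P.mulHeight ^ (2 * g)) hG (s := s) hs hθ hθ1
      (hcount K (1 / ((j : ℝ) + 1)) (by positivity)) β hτ
    refine ⟨E, h1, fun α hα C => ?_⟩
    obtain ⟨Q, hQ⟩ := h2 α hα C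
    exact ⟨Q, fun q hq hs _ P hP hb => hQ q hq hs P hb hP⟩
  choose A hA1 hA2 using hall
  refine ⟨⋃ i, A i, ?_, fun α hα K hK c C hc => ?_⟩
  · rw [dimH_iUnion]
    exact iSup_le hA1
  · obtain ⟨j, hj⟩ := exists_nat_ge (1 / c)
    obtain ⟨Q, hQ⟩ := hA2 (⟨K, hK⟩, j) α (fun h => hα (Set.mem_iUnion.2 ⟨_, h⟩)) C
    refine ⟨Q, fun q hq hs P hP hb => ?_⟩
    refine hQ q hq hs hK P hP (hmono K _ c P (by positivity) ?_ hb)
    rw [div_le_iff₀ (by positivity)]
    rw [div_le_iff₀ hc] at hj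
    nlinarith

/-- **Theorem.** Let `g ≥ 2`, let `G` have steps `≥ a > 0` and growth at most `v^e`, let `0 ≤ θ ≤ 1`, `β` in `ℝ^k` and `τ > 0`.
(1) If `κ > 4 g + 4` then `expo g κ < 2 g`, and there is a set `E` in `ℝ^k` of Hausdorff dimension at most
`(k + e expo g κ / (2 g) + θ) / (1 + τ)` such that for each `α` outside `E`, for every subfield `K` of `ℂ` of finite degree,
every `c > 0` and every `C`: for all large `q` with `‖q α_j - β_j‖ ≤ C q^(-τ)` for all `j`, the inequality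
`Δ_C ≤ c M_C ^ κ` holds for ALL twists of ALL configurations `P` with different roots and
`|H_K(P) ^ (2 g) - G q| ≤ q ^ θ`.
(2) If `0 ≤ κ < 4 g + 4` then `expoBelow g κ < 2 g`, and there is a set `E` of dimension at most
`(k + e expoBelow g κ / (2 g) + θ) / (1 + τ)` such that for each `α` outside `E` and all these `K`, `c`, `C`, `q` the
inequality fails for some twist of EACH such configuration.
(3) `G v = a v^e` with `a > 0`, `e ≥ 1` is an example of `G`. -/
theorem result :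
    (∀ (g n : ℕ), 2 ≤ g → n + 1 = 2 * g → ∀ (G : ℕ → ℝ) (e : ℝ), Expanding G e → ∀ θ : ℝ, 0 ≤ θ → θ ≤ 1 →
      ∀ (k : ℕ) (β : Fin k → ℝ) (τ : ℝ), 0 < τ → ∀ κ : ℝ,
      (4 * g + 4 < κ → expo g κ < 2 * g ∧
        ∃ E : Set (Fin k → ℝ), dimH E ≤ ENNReal.ofReal ((k + (e * (expo g κ / (2 * g)) + θ)) / (1 + τ)) ∧
        ∀ α, α ∉ E → ∀ (K : IntermediateField ℚ ℂ) [NumberField K] (c C : ℝ), 0 < c → ∃ Q : ℕ, ∀ q : ℕ, Q ≤ q →
          Solves α β q (C * (q : ℝ) ^ (-τ)) → ∀ P : ℙ K (Fin (n + 1) → K), Function.Injective (roots P.rep) →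
            |P.mulHeight ^ (2 * g) - G q| ≤ (q : ℝ) ^ θ → AllTwists K g n c κ P) ∧
      (0 ≤ κ → κ < 4 * g + 4 → expoBelow g κ < 2 * g ∧
        ∃ E : Set (Fin k → ℝ), dimH E ≤ ENNReal.ofReal ((k + (e * (expoBelow g κ / (2 * g)) + θ)) / (1 + τ)) ∧
        ∀ α, α ∉ E → ∀ (K : IntermediateField ℚ ℂ) [NumberField K] (c C : ℝ), 0 < c → ∃ Q : ℕ, ∀ q : ℕ, Q ≤ q →
          Solves α β q (C * (q : ℝ) ^ (-τ)) → ∀ P : ℙ K (Fin (n + 1) → K), Function.Injective (roots P.rep) →
            |P.mulHeight ^ (2 * g) - G q| ≤ (q : ℝ) ^ θ → ¬ AllTwists K g n c κ P)) ∧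
    ∀ a e : ℝ, 0 < a → 1 ≤ e → Expanding (fun v => a * (v : ℝ) ^ e) e := by
  refine ⟨fun g n hg hn G e hG θ hθ hθ1 k β τ hτ κ => ⟨fun hκ => ?_, fun hκ0 hκ => ?_⟩,
    fun a e ha he => expanding_pow ha he⟩
  · have hg2 : (2 : ℝ) ≤ g := by exact_mod_cast hg
    have hs : 0 ≤ expo g κ := by
      have hk : 0 < κ - 4 * g - 2 := by linarith
      unfold expo
      refine le_min ((by linarith : (0 : ℝ) ≤ 2 * g - 1 / 2).trans (le_max_left _ _)) (le_min ?_ ?_)
      · positivity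
      · have : (0 : ℝ) ≤ 2 * g - 1 := by linarith
        positivity
    refine ⟨((RationalWeierstrassPoints.result ℚ g n hg hn κ).1 hκ).1, ?_⟩
    obtain ⟨E, hE1, hE2⟩ := win hG (s := expo g κ / (2 * g)) (by positivity) hθ hθ1 (n := n) (k := k)
      (fun K _ _ c P => Function.Injective (roots P.rep) ∧ ¬ AllTwists K g n c κ P) g
      (by
        rintro K _ _ c c' P hc hcc ⟨h1, h2⟩
        refine ⟨h1, fun h => h2 fun d hd => (h d hd).trans ?_⟩
        exact mul_le_mul_of_nonneg_right hcc (Real.rpow_nonneg (Nat.cast_nonneg _) _))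
      (by
        intro K _ _ c hc ε hε
        obtain ⟨-, h2⟩ := (RationalWeierstrassPoints.result K g n hg hn κ).1 hκ
        exact count_of hg _ (fun B => RationalWeierstrassPoints.exceptional K g n κ c B) (expo g κ)
          (fun δ hδ => h2 c δ hc hδ) (fun P hP B hB hB2 => by
            have h3 := hP.2
            unfold AllTwists at h3
            push Not at h3
            exact ⟨hP.1, hB2, h3⟩) ε hε) β hτ
    refine ⟨E, hE1, fun α hα K _ c C hc => ?_⟩
    obtain ⟨Q, hQ⟩ := hE2 α hα K c C hc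
    refine ⟨Q, fun q hq hs P hP hw => ?_⟩
    by_contra hcon
    exact hQ q hq hs P hw ⟨hP, hcon⟩
  · have hg2 : (2 : ℝ) ≤ g := by exact_mod_cast hg
    have hs : 0 ≤ expoBelow g κ := by
      unfold expoBelow
      exact (by linarith : (0 : ℝ) ≤ 2 * g - 1 / 2).trans (le_max_left _ _)
    refine ⟨((RationalWeierstrassPoints.result ℚ g n hg hn κ).2 hκ0 hκ).1, ?_⟩
    -- here larger constants are harder to exceed
    have hcf := Pool.Agent.Zk94.Tr.countable_fields
    have hall : ∀ i : {K : IntermediateField ℚ ℂ // NumberField K} × ℕ, ∃ E : Set (Fin k → ℝ),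
        dimH E ≤ ENNReal.ofReal ((k + (e * (expoBelow g κ / (2 * g)) + θ)) / (1 + τ)) ∧
        ∀ α, α ∉ E → ∀ C : ℝ, ∃ Q : ℕ, ∀ q : ℕ, Q ≤ q → Solves α β q (C * (q : ℝ) ^ (-τ)) →
          ∀ (h : NumberField i.1.1), ∀ P : ℙ i.1.1 (Fin (n + 1) → i.1.1), Function.Injective (roots P.rep) →
            |P.mulHeight ^ (2 * g) - G q| ≤ (q : ℝ) ^ θ → ¬ AllTwists i.1.1 g n ((i.2 : ℝ) + 1) κ P := by
      rintro ⟨⟨K, hK⟩, j⟩
      obtain ⟨-, h2⟩ := (RationalWeierstrassPoints.result K g n hg hn κ).2 hκ0 hκ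
      obtain ⟨E, h1, h3⟩ := approx_windows
        {P : ℙ K (Fin (n + 1) → K) | Function.Injective (roots P.rep) ∧ AllTwists K g n ((j : ℝ) + 1) κ P}
        (fun P => P.mulHeight ^ (2 * g)) hG (s := expoBelow g κ / (2 * g)) (by positivity) hθ hθ1
        (count_of hg _ (fun B => RationalWeierstrassPoints.uniform K g n κ ((j : ℝ) + 1) B) (expoBelow g κ)
          (fun δ hδ => h2 ((j : ℝ) + 1) δ (by positivity) hδ) (fun P hP B hB hB2 => ⟨hP.1, hB2, hP.2⟩)) β hτ
      refine ⟨E, h1, fun α hα C => ?_⟩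
      obtain ⟨Q, hQ⟩ := h3 α hα C
      exact ⟨Q, fun q hq hs _ P hP hw hb => hQ q hq hs P ⟨hP, hb⟩ hw⟩
    choose A hA1 hA2 using hall
    refine ⟨⋃ i, A i, ?_, fun α hα K hK c C hc => ?_⟩
    · rw [dimH_iUnion]
      exact iSup_le hA1
    · obtain ⟨j, hj⟩ := exists_nat_ge c
      obtain ⟨Q, hQ⟩ := hA2 (⟨K, hK⟩, j) α (fun h => hα (Set.mem_iUnion.2 ⟨_, h⟩)) C
      refine ⟨Q, fun q hq hs P hP hw hb => hQ q hq hs hK P hP hw fun d hd => (hb d hd).trans ?_⟩
      exact mul_le_mul_of_nonneg_right (by linarith) (Real.rpow_nonneg (Nat.cast_nonneg _) _)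

end Pool.Agent.Results.MP_ca2859_nt.GoodApproximations
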