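import Pool.Agent.Zk73.OR.F
import Pool.Agent.Results.MP_ca2859_nt.MultiplicativeValues

/-!
# The discriminant bound near multiplicative orders and near all exponents `w` with `m ∣ a ^ w - 1`

Hyperelliptic curves of genus `g ≥ 2` over a number field `K` all of whose Weierstrass points are rational: the twists by
`d ∈ K*` of `y² = X ∏ (X - x_i)`, where `x` is a point of `P^{2g-1}(K)` with `0, x_i` different. Let `G` have steps bounded
below by a positive constant and growth at most `v^e`, for example `G(v) = α v^e`, let `κ > 4 g + 4`, and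
`θ = e expo(g, κ) / (2 g) + t`. The inequality `Δ_C ≤ c M_C ^ κ` holds for ALL twists of ALL such configurations `x` with
`|H_K(x) ^ (2g) - G w| ≤ w ^ t`

* for `w` the multiplicative order of `a` modulo `p` (the period length of `1 / p` in base `a`), for all integers `a` with
  `2 ≤ |a| ≤ p ^ c`, `c < 1`, and all primes `p ≤ N` but `O (N ^ (1 - η))`, if `θ < 1`,
* for every divisor `w ≥ m ^ δ` of every integer near `m`, for all `m ≤ N` but `O (N ^ (1 - η))`, if `θ < 1`,
* for EVERY exponent `w ≤ N ^ B` with `m ∣ a ^ w - 1` for some `a` with `2 ≤ |a| ≤ exp (c' √(log N))`, for all `m ≤ N` but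
  `N / (log N) ^ A`, if `B θ < 1 / 2`; for instance for all multiples of the period length of `1 / m`,
* for EVERY `w ≤ N ^ B` with `gcd (w, p - 1) ≥ p ^ (1 - l)` for all large primes `p` dividing `m` exactly once, for all
  `m ≤ N` but `N / (log N) ^ A`, if `B θ + l < 1`.

If `κ < 4 g + 4` it fails, in the same sense, for some twist of EACH such `x`.

The tool (`Pool/Agent/Zk73/OR`): a set with `O(X^θ)` elements up to `X` is avoided by the orders modulo almost all primes and by
the large divisors of almost all integers if `θ < 1`; and outside a set of `N / (log N)^A` numbers `m ≤ N`, every `w ≤ N^B` has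
`gcd (w, p - 1) ≥ p^(1 - l)` for all large `p ∣ m` for at most `N^(l + ε)` of the `m`. For every `l > 0`
all multiples of Carmichael's function `λ(m)` are among these `w`; so this extends the tool `N790/CM` of the starting files.
-/

set_option autoImplicit false

open NumberField Height Finset LinearAlgebra.Projectivization Polynomial
open Pool.Agent.W318 (discNorm badNorm)

namespace Pool.Agent.Results.MP_ca2859_nt.MultiplicativeOrders

open Pool.Agent.N733.TG (Expanding expanding_pow)
open Pool.Agent.Zk73.OR (Everywhere keep_good)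
open MultiplicativeValues (count_of)

/-- the roots `0, x_0, ..., x_n` -/
def roots {K : Type} [Field K] {n : ℕ} (x : Fin (n + 1) → K) : Fin (n + 2) → K := Fin.cons 0 x

/-- the right hand side of `y² = d ∏ (X - e_i)`, the `e_i` being the roots -/
noncomputable def curve {K : Type} [Field K] {n : ℕ} (d : K) (x : Fin (n + 1) → K) : K[X] :=
  C d * ∏ i, (X - C (roots x i))

/-- the exponent above `4 g + 4` -/
noncomputable def expo (g : ℕ) (κ : ℝ) : ℝ :=
  min (max (2 * g - 1 / 2) (4 * g / (κ - 4 * g - 2)))
    (min (2 * g * (2 * g + 1) / (κ - 4 * g - 2)) (1 + 2 * g * (2 * g - 1) / (κ - 4 * g - 2)))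

/-- the exponent below `4 g + 4` -/
noncomputable def expoBelow (g : ℕ) (κ : ℝ) : ℝ :=
  max (2 * g - 1 / 2) (4 * g / (2 + (2 * g + 1) * (1 - κ / (4 * g + 4))))

/-- **Theorem.** Let `G` have steps `≥ a > 0` and growth at most `v^e`, for example `G v = α v ^ e` with `α > 0`, `e ≥ 1`. Let
`K` be a number field, `g ≥ 2`, `c > 0`, `0 ≤ t ≤ 1`. (1) If `κ > 4 g + 4` then `expo g κ < 2 g`, and the four statements of
`Everywhere`, about divisors of almost all integers, orders modulo almost all primes, numbers sharing large divisors with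
`p - 1` for the large primes `p` dividing `m`, and exponents `w` with `m ∣ a ^ w - 1`, hold with
`θ = e * expo g κ / (2 g) + t` for the property: `Δ_C ≤ c M_C ^ κ` for ALL twists `d` of ALL configurations `P` with
different roots and `|H_K(P) ^ (2 g) - G w| ≤ w ^ t`. (2) If `0 ≤ κ < 4 g + 4` then `expoBelow g κ < 2 g`, and they hold with
`expoBelow` for the property: for EACH such configuration the inequality fails for some twist. -/
theorem result :
    (∀ (G : ℕ → ℝ) (e : ℝ), Expanding G e →
      ∀ (K : Type) [Field K] [NumberField K] (g n : ℕ) (κ c t : ℝ), 2 ≤ g → n + 1 = 2 * g → 0 < c → 0 ≤ t → t ≤ 1 →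
      (4 * g + 4 < κ → expo g κ < 2 * g ∧ Everywhere (e * (expo g κ / (2 * g)) + t)
        (fun w => ∀ P : ℙ K (Fin (n + 1) → K), Function.Injective (roots P.rep) →
          |P.mulHeight ^ (2 * g) - G w| ≤ (w : ℝ) ^ t → ∀ d : K, d ≠ 0 →
            (discNorm g (curve d P.rep) : ℝ) ≤ c * (badNorm g (curve d P.rep) : ℝ) ^ κ)) ∧
      (0 ≤ κ → κ < 4 * g + 4 → expoBelow g κ < 2 * g ∧ Everywhere (e * (expoBelow g κ / (2 * g)) + t)
        (fun w => ∀ P : ℙ K (Fin (n + 1) → K), Function.Injective (roots P.rep) →
          |P.mulHeight ^ (2 * g) - G w| ≤ (w : ℝ) ^ t → ∃ d : K, d ≠ 0 ∧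
            c * (badNorm g (curve d P.rep) : ℝ) ^ κ < (discNorm g (curve d P.rep) : ℝ)))) ∧
    ∀ α e : ℝ, 0 < α → 1 ≤ e → Expanding (fun v => α * (v : ℝ) ^ e) e := by
  refine ⟨fun G e hG K _ _ g n κ c t hg hn hc ht ht1 => ⟨fun hκ => ?_, fun hκ0 hκ => ?_⟩,
    fun α e hα he => expanding_pow hα he⟩
  · obtain ⟨h1, h2⟩ := (RationalWeierstrassPoints.result K g n hg hn κ).1 hκ
    have hg2 : (2 : ℝ) ≤ g := by exact_mod_cast hg
    have hs : 0 ≤ expo g κ := by
      have hk : 0 < κ - 4 * g - 2 := by linarith
      unfold expo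
      refine le_min ((by linarith : (0 : ℝ) ≤ 2 * g - 1 / 2).trans (le_max_left _ _)) (le_min ?_ ?_)
      · positivity
      · have : (0 : ℝ) ≤ 2 * g - 1 := by linarith
        positivity
    refine ⟨h1, ?_⟩
    exact keep_good (T := ℙ K (Fin (n + 1) → K)) (fun P => Function.Injective (roots P.rep))
      (fun P => ∀ d : K, d ≠ 0 → (discNorm g (curve d P.rep) : ℝ) ≤ c * (badNorm g (curve d P.rep) : ℝ) ^ κ)
      (fun P => P.mulHeight ^ (2 * g)) hG (s := expo g κ / (2 * g)) (κ := t) (by positivity) ht ht1
      (count_of hg _ (fun B => RationalWeierstrassPoints.exceptional K g n κ c B) (expo g κ)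
        (fun δ hδ => h2 c δ hc hδ) (fun P hP B hB hB2 => by
          have h3 := hP.2
          push Not at h3
          exact ⟨hP.1, hB2, h3⟩))
  · obtain ⟨h1, h2⟩ := (RationalWeierstrassPoints.result K g n hg hn κ).2 hκ0 hκ
    have hg2 : (2 : ℝ) ≤ g := by exact_mod_cast hg
    have hs : 0 ≤ expoBelow g κ := by
      unfold expoBelow
      exact (by linarith : (0 : ℝ) ≤ 2 * g - 1 / 2).trans (le_max_left _ _)
    refine ⟨h1, ?_⟩
    exact keep_good (T := ℙ K (Fin (n + 1) → K)) (fun P => Function.Injective (roots P.rep))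
      (fun P => ∃ d : K, d ≠ 0 ∧ c * (badNorm g (curve d P.rep) : ℝ) ^ κ < (discNorm g (curve d P.rep) : ℝ))
      (fun P => P.mulHeight ^ (2 * g)) hG (s := expoBelow g κ / (2 * g)) (κ := t) (by positivity) ht ht1
      (count_of hg _ (fun B => RationalWeierstrassPoints.uniform K g n κ c B) (expoBelow g κ)
        (fun δ hδ => h2 c δ hc hδ) (fun P hP B hB hB2 => by
          have h3 := hP.2
          push Not at h3
          exact ⟨hP.1, hB2, h3⟩))

end Pool.Agent.Results.MP_ca2859_nt.MultiplicativeOrders
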